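import Mathlib

/-! Functions `x ^ a * (conj x) ^ b` with integer exponents on the complex plane: derivatives,
smoothness at the origin, Laplacian. -/

set_option autoImplicit false

open Metric Set Filter Topology Asymptotics ComplexConjugate

namespace Pool.Agent.W135.CQ

/-- `x ^ a * (conj x) ^ b` -/
noncomputable def F (a b : ℤ) (x : ℂ) : ℂ := x ^ a * (conj x) ^ b

theorem F_zero {a b : ℤ} (h : 1 ≤ a + b) : F a b 0 = 0 := by
  unfold F
  rw [map_zero]
  by_cases ha : a = 0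
  · have hb : b ≠ 0 := by omega
    rw [zero_zpow b hb, mul_zero]
  · rw [zero_zpow a ha, zero_mul]

theorem F_norm {x : ℂ} (hx : x ≠ 0) (a b : ℤ) : ‖F a b x‖ = ‖x‖ ^ (a + b) := by
  unfold F
  rw [norm_mul, norm_zpow, norm_zpow, Complex.norm_conj, zpow_add₀ (norm_ne_zero_iff.mpr hx)]

theorem F_norm' {a b : ℤ} (h : 1 ≤ a + b) (x : ℂ) : ‖F a b x‖ = ‖x‖ ^ (a + b) := by
  by_cases hx : x = 0
  · rw [hx, F_zero h, norm_zero, zero_zpow _ (by omega)]
  · exact F_norm hx a b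

/-- the derivative of `F a b` -/
noncomputable def DF (a b : ℤ) (x : ℂ) : ℂ →L[ℝ] ℂ :=
  ((a : ℂ) * F (a - 1) b x) • (ContinuousLinearMap.id ℝ ℂ) +
    ((b : ℂ) * F a (b - 1) x) • (Complex.conjCLE : ℂ →L[ℝ] ℂ)

theorem DF_apply (a b : ℤ) (x v : ℂ) :
    DF a b x v = a * F (a - 1) b x * v + b * F a (b - 1) x * conj v := by
  unfold DF
  simp

theorem F_hasFDeriv_ne (a b : ℤ) {x : ℂ} (hx : x ≠ 0) : HasFDerivAt (F a b) (DF a b x) x := by
  have h1 : HasFDerivAt (fun x : ℂ => x ^ a)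
      ((ContinuousLinearMap.toSpanSingleton ℂ ((a : ℂ) * x ^ (a - 1))).restrictScalars ℝ) x :=
    (hasDerivAt_zpow a x (Or.inl hx)).hasFDerivAt.restrictScalars ℝ
  have hcx : conj x ≠ 0 := (map_ne_zero (starRingEnd ℂ)).mpr hx
  have h2 : HasFDerivAt (fun x : ℂ => x ^ b)
      ((ContinuousLinearMap.toSpanSingleton ℂ
        ((b : ℂ) * (conj x) ^ (b - 1))).restrictScalars ℝ) (conj x) :=
    (hasDerivAt_zpow b (conj x) (Or.inl hcx)).hasFDerivAt.restrictScalars ℝ
  have h3 : HasFDerivAt (fun x : ℂ => conj x) (Complex.conjCLE : ℂ →L[ℝ] ℂ) x :=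
    (Complex.conjCLE : ℂ →L[ℝ] ℂ).hasFDerivAt
  have h4 := h1.mul (h2.comp x h3)
  refine h4.congr_fderiv ?_
  ext v
  rw [DF_apply]
  unfold F
  simp
  ring

theorem F_hasFDeriv {a b : ℤ} (h : 2 ≤ a + b) (x : ℂ) : HasFDerivAt (F a b) (DF a b x) x := by
  by_cases hx : x = 0
  · rw [hx]
    have h0 : DF a b 0 = 0 := by
      ext v
      rw [DF_apply, F_zero (by omega), F_zero (by omega)]
      simp
    rw [h0]
    obtain ⟨n, hn⟩ : ∃ n : ℕ, a + b = n + 2 := ⟨(a + b - 2).toNat, by omega⟩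
    have h1 : F a b =O[𝓝 (0 : ℂ)] fun x => ‖x - 0‖ ^ (n + 2) := by
      apply IsBigO.of_bound 1
      filter_upwards with x
      rw [F_norm' (by omega), hn]
      simp only [sub_zero, one_mul, norm_pow, norm_norm]
      exact_mod_cast le_rfl
    exact h1.hasFDerivAt (by omega)
  · exact F_hasFDeriv_ne a b hx

theorem F_cont {a b : ℤ} (h : 1 ≤ a + b) : Continuous (F a b) := by
  rw [continuous_iff_continuousAt]
  intro x
  by_cases hx : x = 0
  · rw [hx, ContinuousAt, F_zero h, tendsto_zero_iff_norm_tendsto_zero]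
    obtain ⟨n, hn⟩ : ∃ n : ℕ, a + b = n + 1 := ⟨(a + b - 1).toNat, by omega⟩
    have h1 : ∀ x : ℂ, ‖F a b x‖ = ‖x‖ ^ (n + 1) := by
      intro x; rw [F_norm' h, hn]; exact_mod_cast rfl
    simp_rw [h1]
    have h2 : Tendsto (fun x : ℂ => ‖x‖ ^ (n + 1)) (𝓝 0) (𝓝 (‖(0 : ℂ)‖ ^ (n + 1))) :=
      (continuous_norm.pow (n + 1)).tendsto 0
    simpa using h2
  · exact (F_hasFDeriv_ne a b hx).continuousAt

theorem F_fderiv {a b : ℤ} (h : 2 ≤ a + b) : fderiv ℝ (F a b) = DF a b := by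
  ext1 x
  exact (F_hasFDeriv h x).fderiv

theorem F_contDiff (n : ℕ) : ∀ {a b : ℤ}, (n : ℤ) + 1 ≤ a + b → ContDiff ℝ n (F a b) := by
  induction n with
  | zero =>
    intro a b h
    rw [Nat.cast_zero, contDiff_zero]
    exact F_cont (by simpa using h)
  | succ n ih =>
    intro a b h
    push_cast at h ⊢
    rw [contDiff_succ_iff_fderiv]
    refine ⟨fun x => (F_hasFDeriv (by omega) x).differentiableAt, by simp, ?_⟩
    rw [F_fderiv (by omega)]
    unfold DF
    have h1 : ContDiff ℝ n (F (a - 1) b) := ih (by omega)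
    have h2 : ContDiff ℝ n (F a (b - 1)) := ih (by omega)
    exact ((contDiff_const.mul h1).smul contDiff_const).add
      ((contDiff_const.mul h2).smul contDiff_const)

/-- the second derivative of `F a b` -/
noncomputable def D2F (a b : ℤ) (x : ℂ) : ℂ →L[ℝ] ℂ →L[ℝ] ℂ :=
  ((a : ℂ) • DF (a - 1) b x).smulRight (ContinuousLinearMap.id ℝ ℂ) +
    ((b : ℂ) • DF a (b - 1) x).smulRight (Complex.conjCLE : ℂ →L[ℝ] ℂ)

theorem DF_hasFDeriv {a b : ℤ} (h : 3 ≤ a + b) (x : ℂ) :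
    HasFDerivAt (DF a b) (D2F a b x) x := by
  have h1 : HasFDerivAt (fun x => (a : ℂ) * F (a - 1) b x) ((a : ℂ) • DF (a - 1) b x) x :=
    (F_hasFDeriv (by omega) x).const_mul _
  have h2 : HasFDerivAt (fun x => (b : ℂ) * F a (b - 1) x) ((b : ℂ) • DF a (b - 1) x) x :=
    (F_hasFDeriv (by omega) x).const_mul _
  have h3 := h1.smul_const (ContinuousLinearMap.id ℝ ℂ)
  have h4 := h2.smul_const (Complex.conjCLE : ℂ →L[ℝ] ℂ)
  exact h3.add h4

theorem D2F_apply (a b : ℤ) (x v w : ℂ) :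
    D2F a b x v w = a * DF (a - 1) b x v * w + b * DF a (b - 1) x v * conj w := by
  unfold D2F
  simp

theorem D2F_lap (a b : ℤ) (x : ℂ) :
    D2F a b x 1 1 + D2F a b x Complex.I Complex.I = 4 * a * b * F (a - 1) (b - 1) x := by
  simp only [D2F_apply, DF_apply, map_one, Complex.conj_I]
  push_cast
  linear_combination ((a : ℂ) * (a - 1) * F (a - 1 - 1) b x - 2 * a * b * F (a - 1) (b - 1) x +
    b * (b - 1) * F a (b - 1 - 1) x) * Complex.I_sq

end Pool.Agent.W135.CQ
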