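import Pool.Agent.W722.Cq.Stm
import Pool.Agent.W135.CQ.Fab

set_option autoImplicit false

open Metric Set Filter Topology Asymptotics ComplexConjugate

namespace Pool.Agent.W135.CQ

open Pool.Agent.W722.Cq

/-- finite combination -/
noncomputable def SF {ι : Type} (s : Finset ι) (k : ι → ℂ) (a b : ι → ℤ) (x : ℂ) : ℂ :=
  ∑ i ∈ s, k i * F (a i) (b i) x

theorem SF_contDiff {ι : Type} (s : Finset ι) (k : ι → ℂ) (a b : ι → ℤ)
    (h : ∀ i ∈ s, 3 ≤ a i + b i) : ContDiff ℝ 2 (fun x => (SF s k a b x).re) := by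
  have h1 : ContDiff ℝ 2 (SF s k a b) := by
    unfold SF
    apply ContDiff.sum
    intro i hi
    have := F_contDiff 2 (a := a i) (b := b i) (by have := h i hi; push_cast; omega)
    exact contDiff_const.mul this
  exact Complex.reCLM.contDiff.comp h1

theorem SF_lap {ι : Type} (s : Finset ι) (k : ι → ℂ) (a b : ι → ℤ)
    (h : ∀ i ∈ s, 3 ≤ a i + b i) (x : ℂ) :
    Lap (fun x => (SF s k a b x).re) x =
      (∑ i ∈ s, k i * (4 * a i * b i) * F (a i - 1) (b i - 1) x).re := by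
  have h1 : ∀ x, HasFDerivAt (fun x => (SF s k a b x).re)
      (Complex.reCLM.comp (∑ i ∈ s, k i • DF (a i) (b i) x)) x := by
    intro x
    have h2 : HasFDerivAt (SF s k a b) (∑ i ∈ s, k i • DF (a i) (b i) x) x := by
      unfold SF
      apply HasFDerivAt.fun_sum
      intro i hi
      exact (F_hasFDeriv (by have := h i hi; omega) x).const_mul (k i)
    exact Complex.reCLM.hasFDerivAt.comp x h2
  have h3 : fderiv ℝ (fun x => (SF s k a b x).re) =
      fun x => (ContinuousLinearMap.compL ℝ ℂ ℂ ℝ Complex.reCLM)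
        (∑ i ∈ s, k i • DF (a i) (b i) x) := by
    funext x
    exact (h1 x).fderiv
  have h4 : HasFDerivAt (fderiv ℝ (fun x => (SF s k a b x).re))
      ((ContinuousLinearMap.compL ℝ ℂ ℂ ℝ Complex.reCLM).comp
        (∑ i ∈ s, k i • D2F (a i) (b i) x)) x := by
    rw [h3]
    have h5 : HasFDerivAt (fun x => ∑ i ∈ s, k i • DF (a i) (b i) x)
        (∑ i ∈ s, k i • D2F (a i) (b i) x) x := by
      apply HasFDerivAt.fun_sum
      intro i hi
      exact (DF_hasFDeriv (h i hi) x).const_smul (k i)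
    exact (ContinuousLinearMap.compL ℝ ℂ ℂ ℝ Complex.reCLM).hasFDerivAt.comp x h5
  unfold Lap
  rw [h4.fderiv]
  have h6 : ∀ v w : ℂ, ((ContinuousLinearMap.compL ℝ ℂ ℂ ℝ Complex.reCLM).comp
        (∑ i ∈ s, k i • D2F (a i) (b i) x)) v w =
        (∑ i ∈ s, k i * D2F (a i) (b i) x v w).re := by
    intro v w
    simp
  rw [h6, h6, ← Complex.add_re, ← Finset.sum_add_distrib]
  congr 1
  apply Finset.sum_congr rfl
  intro i _
  rw [← mul_add, D2F_lap]
  ring

theorem F_scale (a b : ℤ) (r : ℝ) (hr : 0 < r) (e : ℂ) :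
    F a b (r * e) = (r : ℂ) ^ (a + b) * F a b e := by
  unfold F
  have hr' : (r : ℂ) ≠ 0 := by exact_mod_cast hr.ne'
  rw [map_mul, Complex.conj_ofReal, mul_zpow, mul_zpow, zpow_add₀ hr']
  ring

theorem F_circle (a b : ℤ) (e : ℂ) (he : ‖e‖ = 1) : F a b e = e ^ (a - b) := by
  unfold F
  have h0 : e ≠ 0 := by
    intro h; rw [h, norm_zero] at he; norm_num at he
  have h1 : conj e = e⁻¹ := by
    rw [Complex.inv_def, Complex.normSq_eq_norm_sq, he]; simp
  rw [h1, inv_zpow, ← zpow_neg, ← zpow_add₀ h0, sub_eq_add_neg]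

/-- simultaneous recurrence on the circle -/
theorem recur (s : Finset ℂ) (hs : ∀ e ∈ s, ‖e‖ = 1) (M : ℕ) :
    ∃ N ≥ M, ∀ e ∈ s, ‖e ^ N - 1‖ < 1 / 2 := by
  obtain ⟨a, _, φ, hφ, hlim⟩ := IsCompact.tendsto_subseq (isCompact_closedBall (0 : s → ℂ) 1)
    (x := fun (n : ℕ) (e : s) => (e : ℂ) ^ n) (by
      intro n
      rw [mem_closedBall_zero_iff, pi_norm_le_iff_of_nonneg zero_le_one]
      intro e
      rw [norm_pow, hs e e.2, one_pow])
  obtain ⟨n0, hn0⟩ := Metric.tendsto_atTop.1 hlim (1 / 4) (by norm_num)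
  have h1 := hn0 n0 le_rfl
  have h2 := hn0 (n0 + M) (by omega)
  have h3 : φ n0 + M ≤ φ (n0 + M) := by
    clear h1 h2
    induction M with
    | zero => simp
    | succ M ih =>
      have := hφ (show n0 + M < n0 + (M + 1) by omega)
      omega
  refine ⟨φ (n0 + M) - φ n0, by omega, ?_⟩
  intro e he
  have h4 : dist ((e : ℂ) ^ φ (n0 + M)) ((e : ℂ) ^ φ n0) < 1 / 2 := by
    have h5 : dist ((e : ℂ) ^ φ (n0 + M)) (a ⟨e, he⟩) ≤ dist (((fun n (e : s) => (e : ℂ) ^ n) ∘ φ) (n0 + M)) a :=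
      dist_le_pi_dist (((fun n (e : s) => (e : ℂ) ^ n) ∘ φ) (n0 + M)) a ⟨e, he⟩
    have h6 : dist ((e : ℂ) ^ φ n0) (a ⟨e, he⟩) ≤ dist (((fun n (e : s) => (e : ℂ) ^ n) ∘ φ) n0) a :=
      dist_le_pi_dist (((fun n (e : s) => (e : ℂ) ^ n) ∘ φ) n0) a ⟨e, he⟩
    have h7 := dist_triangle_right ((e : ℂ) ^ φ (n0 + M)) ((e : ℂ) ^ φ n0) (a ⟨e, he⟩)
    linarith
  have h8 : (e : ℂ) ^ φ (n0 + M) - e ^ φ n0 = e ^ φ n0 * (e ^ (φ (n0 + M) - φ n0) - 1) := by
    rw [mul_sub, ← pow_add, mul_one]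
    congr 2
    omega
  rw [dist_eq_norm, h8, norm_mul, norm_pow, hs e he, one_pow, one_mul] at h4
  exact h4

theorem Hm_eq (d : ℕ) (c : ℕ → ℂ) :
    Hm d c = fun x => (SF (Finset.Ioo 0 d) c (fun a => (a : ℤ)) (fun a => ((d - a : ℕ) : ℤ)) x).re := by
  funext x
  unfold Hm SF F
  congr 1
  apply Finset.sum_congr rfl
  intro a _
  rw [zpow_natCast, zpow_natCast]
  ring

/-- Laplacian of `P` on the circle -/
noncomputable def pp (d : ℕ) (c : ℕ → ℂ) (e : ℂ) : ℝ :=
  (∑ a ∈ Finset.Ioo 0 d, c a * (4 * (a : ℂ) * ((d - a : ℕ) : ℂ)) *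
    F ((a : ℤ) - 1) (((d - a : ℕ) : ℤ) - 1) e).re

theorem Hm_lap (d : ℕ) (hd : 3 ≤ d) (c : ℕ → ℂ) (x : ℂ) : Lap (Hm d c) x = pp d c x := by
  rw [Hm_eq, SF_lap]
  · unfold pp
    congr 1
  · intro a ha
    rw [Finset.mem_Ioo] at ha
    omega

/-- the polynomial whose roots contain the zeros of `pp` on the circle -/
noncomputable def QQ (m : ℕ) (c : ℕ → ℂ) : Polynomial ℂ :=
  ∑ a ∈ Finset.Ioo 0 (2 * m), (Polynomial.C (c a * (4 * (a : ℂ) * ((2 * m - a : ℕ) : ℂ))) *
      Polynomial.X ^ (2 * a) +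
    Polynomial.C (conj (c a * (4 * (a : ℂ) * ((2 * m - a : ℕ) : ℂ)))) *
      Polynomial.X ^ (4 * m - 2 * a))

theorem QQ_eval (m : ℕ) (c : ℕ → ℂ) (e : ℂ) (he : ‖e‖ = 1) :
    (QQ m c).eval e = 2 * e ^ (2 * m) * (pp (2 * m) c e : ℂ) := by
  have h0 : e ≠ 0 := by
    intro h; rw [h, norm_zero] at he; norm_num at he
  have hc : conj e = e⁻¹ := by
    rw [Complex.inv_def, Complex.normSq_eq_norm_sq, he]; simp
  unfold pp
  rw [Complex.re_eq_add_conj, map_sum]
  have : ∀ z : ℂ, 2 * e ^ (2 * m) * (z / 2) = e ^ (2 * m) * z := by intro z; ring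
  rw [this, ← Finset.sum_add_distrib, Finset.mul_sum]
  unfold QQ
  rw [Polynomial.eval_finsetSum]
  apply Finset.sum_congr rfl
  intro a ha
  rw [Finset.mem_Ioo] at ha
  rw [F_circle _ _ _ he]
  rw [Polynomial.eval_add, Polynomial.eval_mul, Polynomial.eval_mul, Polynomial.eval_C,
    Polynomial.eval_C, Polynomial.eval_pow, Polynomial.eval_pow, Polynomial.eval_X]
  rw [map_mul (starRingEnd ℂ) _ (e ^ _), map_zpow₀, hc, mul_add]
  congr 1
  · have : e ^ (2 * a) = e ^ (2 * m) * e ^ ((a : ℤ) - 1 - (((2 * m - a : ℕ) : ℤ) - 1)) := by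
      rw [← zpow_natCast, ← zpow_natCast, ← zpow_add₀ h0]
      congr 1
      push_cast [Nat.cast_sub ha.2.le]
      omega
    rw [this]; ring
  · have : e ^ (4 * m - 2 * a) = e ^ (2 * m) * e⁻¹ ^ ((a : ℤ) - 1 - (((2 * m - a : ℕ) : ℤ) - 1)) := by
      rw [← zpow_natCast, ← zpow_natCast, inv_zpow, ← zpow_neg, ← zpow_add₀ h0]
      congr 1
      push_cast [Nat.cast_sub ha.2.le]
      omega
    rw [this]; ring


/-- the superharmonic-near-the-zeros function, without the factor -/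
noncomputable def kG (β : ℝ) : Fin 2 → ℂ := ![(β : ℂ), (β / 2 : ℂ)]

theorem bump (hom : S_HOM) : S_BUMP := by
  intro m P hm hP
  obtain ⟨c, hPc⟩ := hP.form
  have hd : 3 ≤ 2 * m := by omega
  have hlapP : ∀ x, Lap P x = pp (2 * m) c x := by
    intro x; rw [hPc]; exact Hm_lap _ hd c x
  have hpp0 : ∀ x, 0 ≤ pp (2 * m) c x := by
    intro x; rw [← hlapP]; exact hP.sub x
  -- homogeneity of `pp`
  have hpph : ∀ (r : ℝ) (e : ℂ), 0 < r → pp (2 * m) c (r * e) =
      r ^ (2 * m - 2) * pp (2 * m) c e := by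
    intro r e hr
    unfold pp
    rw [← Complex.re_ofReal_mul, Finset.mul_sum]
    congr 1
    apply Finset.sum_congr rfl
    intro a ha
    rw [Finset.mem_Ioo] at ha
    rw [F_scale _ _ r hr]
    have : (a : ℤ) - 1 + (((2 * m - a : ℕ) : ℤ) - 1) = ((2 * m - 2 : ℕ) : ℤ) := by
      omega
    rw [this, zpow_natCast]
    push_cast
    ring
  -- the polynomial is not zero
  have hQ : QQ m c ≠ 0 := by
    intro hQ
    have h1 : ∀ e : ℂ, ‖e‖ = 1 → pp (2 * m) c e = 0 := by
      intro e he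
      have h2 := QQ_eval m c e he
      rw [hQ, Polynomial.eval_zero] at h2
      have h0 : e ≠ 0 := by
        intro h; rw [h, norm_zero] at he; norm_num at he
      have h3 : (2 : ℂ) * e ^ (2 * m) ≠ 0 := mul_ne_zero (by norm_num) (pow_ne_zero _ h0)
      have h4 := (mul_eq_zero.mp h2.symm).resolve_left h3
      exact_mod_cast h4
    have h5 : ∀ x : ℂ, Lap (Hm (2 * m) c) x = 0 := by
      intro x
      rw [Hm_lap _ hd]
      by_cases hx : x = 0
      · rw [hx]
        unfold pp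
        rw [Finset.sum_eq_zero, Complex.zero_re]
        intro a ha
        rw [Finset.mem_Ioo] at ha
        rw [F_zero (by omega), mul_zero]
      · have hx' := norm_pos_iff.mpr hx
        have h6 : x = ((‖x‖ : ℝ) : ℂ) * (x / ‖x‖) := by
          rw [mul_div_cancel₀]; exact_mod_cast hx'.ne'
        rw [h6, hpph _ _ hx', h1, mul_zero]
        rw [norm_div, Complex.norm_real, norm_norm, div_self hx'.ne']
    obtain ⟨x, hx⟩ := hP.nz
    apply hx
    rw [hPc]
    exact hom.2.1 (2 * m) c h5 x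
  -- recurrence
  set Z : Finset ℂ := ((QQ m c).roots.toFinset.filter (fun e => ‖e‖ = 1)) with hZ
  have hZmem : ∀ e : ℂ, ‖e‖ = 1 → pp (2 * m) c e = 0 → e ∈ Z := by
    intro e he h0
    rw [hZ, Finset.mem_filter, Multiset.mem_toFinset, Polynomial.mem_roots hQ]
    refine ⟨?_, he⟩
    rw [Polynomial.IsRoot, QQ_eval m c e he, h0]
    simp
  obtain ⟨N, hN, hrec⟩ := recur (Z.image (fun e => e ^ 2)) (by
    intro e he
    rw [Finset.mem_image] at he
    obtain ⟨e', he', rfl⟩ := he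
    rw [hZ, Finset.mem_filter] at he'
    rw [norm_pow, he'.2, one_pow]) (3 * m)
  obtain ⟨q, hq⟩ : ∃ q : ℕ, N = m + q ∧ 2 * m ≤ q := ⟨N - m, by omega, by omega⟩
  obtain ⟨hqN, hq2⟩ := hq
  -- exponents
  set aa : Fin 2 → ℤ := ![(m : ℤ), 2 * m + q] with haa
  set bb : Fin 2 → ℤ := ![(m : ℤ), -q] with hbb
  have hab : ∀ i ∈ (Finset.univ : Finset (Fin 2)), 3 ≤ aa i + bb i := by
    intro i _
    fin_cases i <;> simp [haa, hbb] <;> omega
  -- Laplacian of the bump
  have hlapG : ∀ (β : ℝ) (x : ℂ), Lap (fun x => (SF Finset.univ (kG β) aa bb x).re) x =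
      β * (4 * m * m * F (m - 1) (m - 1) x -
        2 * (2 * m + q) * q * F (2 * m + q - 1) (-q - 1) x).re := by
    intro β x
    rw [SF_lap _ _ _ _ hab, ← Complex.re_ofReal_mul]
    congr 1
    simp only [Fin.sum_univ_two, haa, hbb, kG]
    simp
    ring
  set κ : ℂ → ℝ := fun x => (4 * m * m * F (m - 1) (m - 1) x -
        2 * (2 * m + q) * q * F (2 * m + q - 1) (-q - 1) x).re with hκ
  have hκh : ∀ (r : ℝ) (e : ℂ), 0 < r → κ (r * e) = r ^ (2 * m - 2) * κ e := by
    intro r e hr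
    rw [hκ]
    simp only
    rw [← Complex.re_ofReal_mul, F_scale _ _ r hr, F_scale _ _ r hr]
    have e1 : (m : ℤ) - 1 + (m - 1) = ((2 * m - 2 : ℕ) : ℤ) := by omega
    have e2 : (2 * m + q - 1 : ℤ) + (-q - 1) = ((2 * m - 2 : ℕ) : ℤ) := by omega
    rw [e1, e2, zpow_natCast]
    congr 1
    push_cast
    ring
  have hκc : Continuous κ := by
    rw [hκ]
    apply Complex.continuous_re.comp
    exact (continuous_const.mul (F_cont (by omega))).sub (continuous_const.mul (F_cont (by omega)))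
  have hppc : Continuous (pp (2 * m) c) := by
    unfold pp
    apply Complex.continuous_re.comp
    apply continuous_finsetSum
    intro a ha
    rw [Finset.mem_Ioo] at ha
    exact continuous_const.mul (F_cont (by omega))
  have hκb : ∀ e : ℂ, ‖e‖ = 1 → κ e ≤ 4 * m * m + 2 * (2 * m + q) * q := by
    intro e he
    have h0 : e ≠ 0 := by
      intro h; rw [h, norm_zero] at he; norm_num at he
    refine (Complex.re_le_norm _).trans ?_
    refine (norm_sub_le _ _).trans ?_
    rw [norm_mul (4 * (m : ℂ) * m), norm_mul (2 * (2 * (m : ℂ) + q) * q), F_norm h0, F_norm h0,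
      he, one_zpow, one_zpow, mul_one, mul_one]
    apply le_of_eq
    have e1 : ((4 : ℂ) * m * m) = ((4 * m * m : ℕ) : ℂ) := by push_cast; ring
    have e2 : ((2 : ℂ) * (2 * m + q) * q) = ((2 * (2 * m + q) * q : ℕ) : ℂ) := by push_cast; ring
    rw [e1, e2, Complex.norm_natCast, Complex.norm_natCast]
    push_cast
    ring
  -- kappa is negative at the zeros
  have hneg : ∀ e ∈ Z, κ e < 0 := by
    intro e he
    have he1 : ‖e‖ = 1 := by rw [hZ, Finset.mem_filter] at he; exact he.2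
    have h1 := hrec (e ^ 2) (Finset.mem_image_of_mem _ he)
    have h2 : F (2 * m + q - 1) (-q - 1) e = (e ^ 2) ^ N := by
      rw [F_circle _ _ _ he1, ← pow_mul, ← zpow_natCast]
      congr 1
      push_cast
      rw [hqN]; push_cast; ring
    have h3 : F (m - 1) (m - 1) e = 1 := by
      rw [F_circle _ _ _ he1, sub_self, zpow_zero]
    have h4 : 1 / 2 < ((e ^ 2) ^ N).re := by
      have h5 : -(1 / 2) < ((e ^ 2) ^ N - 1).re := by
        have := Complex.abs_re_le_norm ((e ^ 2) ^ N - 1)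
        have := neg_abs_le ((e ^ 2) ^ N - 1).re
        linarith
      rw [Complex.sub_re, Complex.one_re] at h5
      linarith
    have h6 : κ e = 4 * m * m - 2 * (2 * m + q) * q * ((e ^ 2) ^ N).re := by
      rw [hκ]
      simp only
      rw [h2, h3, Complex.sub_re]
      have : ((2 : ℂ) * (2 * m + q) * q * (e ^ 2) ^ N) =
        ((2 * (2 * m + q) * q : ℝ) : ℂ) * (e ^ 2) ^ N := by push_cast; ring
      rw [this, Complex.re_ofReal_mul]
      have : ((4 : ℂ) * m * m * 1) = ((4 * m * m : ℝ) : ℂ) := by push_cast; ring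
      rw [this, Complex.ofReal_re]
    rw [h6]
    have hmr : (2 : ℝ) ≤ m := by exact_mod_cast hm
    have hqr : (2 : ℝ) * m ≤ q := by exact_mod_cast hq2
    have h7 : 2 * (2 * (m : ℝ) + q) * q * (1 / 2) ≤ 2 * (2 * (m : ℝ) + q) * q * ((e ^ 2) ^ N).re :=
      mul_le_mul_of_nonneg_left h4.le (by positivity)
    nlinarith
  -- compactness
  obtain ⟨β, hβ, hmain⟩ : ∃ β : ℝ, 0 < β ∧ ∀ e : ℂ, ‖e‖ = 1 → β * κ e ≤ pp (2 * m) c e := by
    set K : Set ℂ := sphere (0 : ℂ) 1 ∩ {e | 0 ≤ κ e} with hK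
    have hKc : IsCompact K := (isCompact_sphere (0 : ℂ) 1).inter_right
      (isClosed_le continuous_const hκc)
    by_cases hKn : K.Nonempty
    · obtain ⟨e0, he0, hmin⟩ := hKc.exists_isMinOn hKn hppc.continuousOn
      have hp0 : 0 < pp (2 * m) c e0 := by
        rcases (hpp0 e0).lt_or_eq with h | h
        · exact h
        · exfalso
          have h1 : ‖e0‖ = 1 := by
            have := he0.1; rwa [mem_sphere_zero_iff_norm] at this
          have h2 := hneg e0 (hZmem e0 h1 h.symm)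
          have h3 : 0 ≤ κ e0 := he0.2
          linarith
      have hC : (0 : ℝ) < 4 * m * m + 2 * (2 * m + q) * q := by
        have hmr : (2 : ℝ) ≤ m := by exact_mod_cast hm
        positivity
      refine ⟨pp (2 * m) c e0 / (4 * m * m + 2 * (2 * m + q) * q), div_pos hp0 hC, ?_⟩
      intro e he
      by_cases hke : 0 ≤ κ e
      · have h1 : pp (2 * m) c e0 ≤ pp (2 * m) c e :=
          hmin (⟨by rwa [mem_sphere_zero_iff_norm], hke⟩ : e ∈ K)
        refine le_trans ?_ h1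
        rw [div_mul_eq_mul_div, div_le_iff₀ hC]
        exact mul_le_mul_of_nonneg_left (hκb e he) hp0.le
      · have h1 : pp (2 * m) c e0 / (4 * m * m + 2 * (2 * m + q) * q) * κ e ≤ 0 :=
          mul_nonpos_of_nonneg_of_nonpos (div_pos hp0 hC).le (le_of_not_ge hke)
        exact h1.trans (hpp0 e)
    · refine ⟨1, one_pos, ?_⟩
      intro e he
      have h1 : ¬ 0 ≤ κ e := by
        intro h
        exact hKn ⟨e, by rwa [mem_sphere_zero_iff_norm], h⟩
      have := hpp0 e
      linarith [not_le.mp h1]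
  -- conclusion
  refine ⟨fun x => (SF Finset.univ (kG β) aa bb x).re, β / 2, 3 / 2 * β, by positivity,
    by positivity, SF_contDiff _ _ _ _ hab, ?_, ?_⟩
  · intro x
    have h1 : (SF Finset.univ (kG β) aa bb x).re =
        β * ‖x‖ ^ (2 * m) + β / 2 * (F (2 * m + q) (-q) x).re := by
      unfold SF
      simp only [Fin.sum_univ_two, haa, hbb, kG]
      simp only [Matrix.cons_val_zero, Matrix.cons_val_one]
      have h2 : F m m x = ((‖x‖ ^ (2 * m) : ℝ) : ℂ) := by
        unfold F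
        rw [zpow_natCast, zpow_natCast, ← mul_pow, Complex.mul_conj, Complex.normSq_eq_norm_sq,
          pow_mul]
        push_cast
        rfl
      rw [h2, Complex.add_re, Complex.re_ofReal_mul, Complex.ofReal_re]
      have h3 : (β : ℂ) / 2 = ((β / 2 : ℝ) : ℂ) := by push_cast; rfl
      rw [h3, Complex.re_ofReal_mul]
    have h2 : |(F (2 * m + q) (-q) x).re| ≤ ‖x‖ ^ (2 * m) := by
      refine (Complex.abs_re_le_norm _).trans ?_
      rw [F_norm' (by omega)]
      have : (2 * m + q + -q : ℤ) = ((2 * m : ℕ) : ℤ) := by push_cast; ring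
      rw [this, zpow_natCast]
    obtain ⟨h3, h4⟩ := abs_le.mp h2
    simp only
    rw [h1]
    constructor
    · nlinarith
    · nlinarith
  · intro x
    rw [hlapG, hlapP]
    change β * κ x ≤ _
    by_cases hx : x = 0
    · have h1 : κ x = 0 := by
        rw [hκ, hx]
        simp only
        rw [F_zero (by omega), F_zero (by omega)]
        simp
      rw [h1, mul_zero]
      exact hpp0 x
    · have hx' := norm_pos_iff.mpr hx
      have h6 : x = ((‖x‖ : ℝ) : ℂ) * (x / ‖x‖) := by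
        rw [mul_div_cancel₀]; exact_mod_cast hx'.ne'
      have h7 : ‖x / ‖x‖‖ = 1 := by
        rw [norm_div, Complex.norm_real, norm_norm, div_self hx'.ne']
      rw [h6, hpph _ _ hx', hκh _ _ hx']
      have h8 := mul_le_mul_of_nonneg_left (hmain _ h7)
        (by positivity : 0 ≤ ‖x‖ ^ (2 * m - 2))
      linarith

end Pool.Agent.W135.CQ
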